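import Pool.Agent.H7.TRI.Stmts

set_option autoImplicit false

namespace Pool.TRI

theorem BK2_thm : BK2Stmt := by
  intro d s x k hd hs hx hx2 hk hks
  have hmu1 : mu s x k ≤ s := min_le_left _ _
  have hmu2 : mu s x k ≤ max 0 (3 * k - x - 1) := min_le_right _ _
  refine ⟨?_, ?_⟩
  · rintro rfl
    unfold bk
    generalize mu s x 2 = M at *
    omega
  · intro hk3
    rcases (by omega : k = 3 ∨ k = 4 ∨ 5 ≤ k) with rfl | rfl | hk5
    · unfold bk
      generalize mu s x 3 = M at *
      omega
    · unfold bk
      generalize mu s x 4 = M at *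
      omega
    · unfold bk
      generalize mu s x k = M at *
      have h1 : 0 ≤ k * (s - M) := mul_nonneg (by omega) (by omega)
      have h2 : 2 * (s + 1) * (k - 1) - k * (k - 1) =
          4 * (2 * s - 3) + (k - 5) * (2 * s - 2 - k) := by ring
      have h3 : 0 ≤ (k - 5) * (2 * s - 2 - k) := mul_nonneg (by omega) (by omega)
      have h4 : 4 * d + x - 7 ≤ 4 * (2 * s - 3) := by omega
      linarith

end Pool.TRI
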